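import Pool.Agent.H39.GriProof

/-!
# The word problem of the Grigorchuk group is not an indexed language

The group is defined by the presentation of the problem file (Lysenok's presentation), the word
problem is the language over the eight letters `a, b, c, d` and their inverses of all words that
represent the identity (`Pool/Agent/H39/GriDef`), and indexed grammars are those of Aho
(`Pool/Agent/H39/IdxDef`).
-/

set_option autoImplicit false

namespace Pool.Agent.Results.MP_71689c_al.NotIndexed

/-- **The word problem of the first Grigorchuk group is not an indexed language.** -/
theorem result :
    ¬ Pool.Agent.H39.Indexed.IsIndexed Pool.Agent.H39.Gri.wordProblem :=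
  Pool.Agent.H39.Gri.wordProblem_not_indexed

end Pool.Agent.Results.MP_71689c_al.NotIndexed
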